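import Pool.Agent.R190.Trk.Max

set_option autoImplicit false

open Set Filter Topology

namespace Pool.Agent.R190.Trk

/-- the separated solution `e^{λ² t} sinh(λ x)` -/
noncomputable def Sh (lam t x : ℝ) : ℝ := Real.exp (lam ^ 2 * t) * Real.sinh (lam * x)

lemma heat_Sh (lam t x : ℝ) : Heat (Sh lam) t x := by
  refine ⟨lam ^ 2 * Real.exp (lam ^ 2 * t) * Real.sinh (lam * x),
    fun z => Real.exp (lam ^ 2 * t) * (Real.cosh (lam * z) * lam), ?_, ?_, ?_⟩
  · have h1 : HasDerivAt (fun s : ℝ => lam ^ 2 * s) (lam ^ 2) t := by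
      simpa using (hasDerivAt_id t).const_mul (lam ^ 2)
    have h2 : HasDerivAt (fun s => Sh lam s x) _ t := (h1.exp).mul_const (Real.sinh (lam * x))
    exact h2.congr_deriv (by ring)
  · refine Eventually.of_forall fun z => ?_
    have h1 : HasDerivAt (fun s : ℝ => lam * s) lam z := by
      simpa using (hasDerivAt_id z).const_mul lam
    exact (h1.sinh).const_mul _
  · have h1 : HasDerivAt (fun s : ℝ => lam * s) lam x := by
      simpa using (hasDerivAt_id x).const_mul lam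
    have h2 : HasDerivAt (fun z => Real.exp (lam ^ 2 * t) * (Real.cosh (lam * z) * lam)) _ x :=
      ((h1.cosh).mul_const lam).const_mul (Real.exp (lam ^ 2 * t))
    exact h2.congr_deriv (by ring)

lemma Sh_cont (lam : ℝ) : Continuous fun p : ℝ × ℝ => Sh lam p.1 p.2 := by
  unfold Sh; fun_prop

/-- the heat kernel barrier near the corner `(0,L)` -/
noncomputable def Wb (L η t x : ℝ) : ℝ :=
  4 * η * ((Real.sqrt (t + η ^ 2))⁻¹ * Real.exp (-(L - x) ^ 2 / (4 * (t + η ^ 2))))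

lemma heat_Wb (L : ℝ) {η t : ℝ} (hη : 0 < η) (ht : 0 ≤ t) (x : ℝ) : Heat (Wb L η) t x := by
  have hs : 0 < t + η ^ 2 := by positivity
  set s : ℝ := t + η ^ 2 with hsdef
  have hsq : Real.sqrt s ^ 2 = s := Real.sq_sqrt hs.le
  have hsq0 : 0 < Real.sqrt s := Real.sqrt_pos.2 hs
  have key : Heat (fun t x => (Real.sqrt (t + η ^ 2))⁻¹ *
      Real.exp (-(L - x) ^ 2 / (4 * (t + η ^ 2)))) t x := by
    refine ⟨(Real.sqrt s)⁻¹ * Real.exp (-(L - x) ^ 2 / (4 * s)) *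
      ((L - x) ^ 2 / (4 * s ^ 2) - 1 / (2 * s)),
      fun z => (Real.sqrt s)⁻¹ * (Real.exp (-(L - z) ^ 2 / (4 * s)) * ((L - z) / (2 * s))),
      ?_, ?_, ?_⟩
    · have h0 : HasDerivAt (fun r : ℝ => r + η ^ 2) 1 t := (hasDerivAt_id t).add_const _
      have h1 := (h0.sqrt (by rw [← hsdef]; exact hs.ne')).inv (by rw [← hsdef]; exact hsq0.ne')
      have h2 := (((h0.const_mul 4).inv (by rw [← hsdef]; positivity)).const_mul
        (-(L - x) ^ 2)).exp
      have h3 := h1.mul h2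
      have h4 : HasDerivAt (fun r : ℝ => (Real.sqrt (r + η ^ 2))⁻¹ *
          Real.exp (-(L - x) ^ 2 / (4 * (r + η ^ 2)))) _ t := h3
      refine h4.congr_deriv ?_
      simp only [← hsdef, Pi.inv_apply]
      rw [show -(L - x) ^ 2 * (4 * s)⁻¹ = -(L - x) ^ 2 / (4 * s) by rw [div_eq_mul_inv], hsq]
      field_simp
      ring
    · refine Eventually.of_forall fun z => ?_
      have h0 : HasDerivAt (fun r : ℝ => L - r) (-1) z := by
        simpa using (hasDerivAt_id z).const_sub L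
      have h1 : HasDerivAt (fun z : ℝ => (Real.sqrt s)⁻¹ *
          Real.exp (-(L - z) ^ 2 / (4 * s))) _ z :=
        ((((h0.pow 2).neg).div_const (4 * s)).exp).const_mul (Real.sqrt s)⁻¹
      refine h1.congr_deriv ?_
      norm_num
      left
      field_simp
      try ring
    · have h0 : HasDerivAt (fun r : ℝ => L - r) (-1) x := by
        simpa using (hasDerivAt_id x).const_sub L
      have h1 : HasDerivAt (fun z : ℝ => (Real.sqrt s)⁻¹ *
          (Real.exp (-(L - z) ^ 2 / (4 * s)) * ((L - z) / (2 * s)))) _ x :=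
        (((((h0.pow 2).neg).div_const (4 * s)).exp).mul
        (h0.div_const (2 * s))).const_mul (Real.sqrt s)⁻¹
      refine h1.congr_deriv ?_
      norm_num
      field_simp
      ring
  exact key.const_mul (4 * η)

lemma Wb_cont (L : ℝ) {η : ℝ} (hη : 0 < η) :
    ContinuousOn (fun p : ℝ × ℝ => Wb L η p.1 p.2) {p | 0 ≤ p.1} := by
  unfold Wb
  have h1 : ContinuousOn (fun p : ℝ × ℝ => Real.sqrt (p.1 + η ^ 2)) {p | 0 ≤ p.1} := by fun_prop
  have h2 : ∀ p ∈ {p : ℝ × ℝ | 0 ≤ p.1}, Real.sqrt (p.1 + η ^ 2) ≠ 0 := by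
    intro p hp
    have : 0 ≤ p.1 := hp
    have : 0 < p.1 + η ^ 2 := by positivity
    exact (Real.sqrt_pos.2 this).ne'
  have h3 : ∀ p ∈ {p : ℝ × ℝ | 0 ≤ p.1}, 4 * (p.1 + η ^ 2) ≠ 0 := by
    intro p hp
    have : 0 ≤ p.1 := hp
    positivity
  refine continuousOn_const.mul ((h1.inv₀ h2).mul ?_)
  refine Real.continuous_exp.comp_continuousOn ?_
  refine ContinuousOn.div (by fun_prop) (by fun_prop) h3

lemma Wb_nonneg (L : ℝ) {η t : ℝ} (hη : 0 < η) (x : ℝ) : 0 ≤ Wb L η t x := by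
  unfold Wb; positivity

/-- the barrier is at least one near the corner -/
lemma one_le_Wb {L η t x : ℝ} (hη : 0 < η) (ht0 : 0 ≤ t) (ht : t ≤ η ^ 2) (hx : |L - x| ≤ η) :
    1 ≤ Wb L η t x := by
  unfold Wb
  have h1 : Real.sqrt (t + η ^ 2) ≤ 3 / 2 * η := by
    rw [Real.sqrt_le_left (by positivity)]
    nlinarith
  have hpos : 0 < Real.sqrt (t + η ^ 2) := Real.sqrt_pos.2 (by positivity)
  have h2 : 3 / 4 ≤ Real.exp (-(L - x) ^ 2 / (4 * (t + η ^ 2))) := by
    have h3 : -(1 / 4) ≤ -(L - x) ^ 2 / (4 * (t + η ^ 2)) := by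
      rw [le_div_iff₀ (by positivity)]
      have : (L - x) ^ 2 ≤ η ^ 2 := by
        rw [← sq_abs (L - x)]
        exact pow_le_pow_left₀ (abs_nonneg _) hx 2
      nlinarith
    have := Real.add_one_le_exp (-(L - x) ^ 2 / (4 * (t + η ^ 2)))
    linarith
  have h4 : (3 / 2 * η)⁻¹ ≤ (Real.sqrt (t + η ^ 2))⁻¹ := inv_anti₀ hpos h1
  have h5 : 4 * η * ((3 / 2 * η)⁻¹ * (3 / 4)) = 2 := by
    have : η ≠ 0 := hη.ne'
    field_simp
    try norm_num
  have h6 : 4 * η * ((3 / 2 * η)⁻¹ * (3 / 4)) ≤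
      4 * η * ((Real.sqrt (t + η ^ 2))⁻¹ * Real.exp (-(L - x) ^ 2 / (4 * (t + η ^ 2)))) := by
    gcongr
  linarith

lemma Wb_le (L : ℝ) {η t : ℝ} (hη : 0 < η) (ht : 0 < t) (x : ℝ) :
    Wb L η t x ≤ 4 * η / Real.sqrt t := by
  unfold Wb
  have h1 : Real.exp (-(L - x) ^ 2 / (4 * (t + η ^ 2))) ≤ 1 := by
    rw [Real.exp_le_one_iff]
    apply div_nonpos_of_nonpos_of_nonneg
    · nlinarith [sq_nonneg (L - x)]
    · positivity
  have h2 : (Real.sqrt (t + η ^ 2))⁻¹ ≤ (Real.sqrt t)⁻¹ := by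
    apply inv_anti₀ (Real.sqrt_pos.2 ht)
    apply Real.sqrt_le_sqrt
    nlinarith [sq_nonneg η]
  have h3 : 0 ≤ (Real.sqrt (t + η ^ 2))⁻¹ := by positivity
  calc 4 * η * ((Real.sqrt (t + η ^ 2))⁻¹ * Real.exp (-(L - x) ^ 2 / (4 * (t + η ^ 2))))
      ≤ 4 * η * ((Real.sqrt t)⁻¹ * 1) := by gcongr
    _ = 4 * η / Real.sqrt t := by rw [mul_one, div_eq_mul_inv]

end Pool.Agent.R190.Trk
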