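import Mathlib

set_option autoImplicit false

/-!
# Cost of approximate boundary tracking for the 1d heat equation (MP_93c926_an): definitions
-/

open Set Filter Topology

namespace Pool.Agent.R190.Trk

/-- At the point `(t,x)` the function `u` (of `t` and `x`) is differentiable in `t` and twice
differentiable in `x`, and `u_t = u_xx` there (`a` is the common value, `g = u_x(t,·)`). -/
def Heat (u : ℝ → ℝ → ℝ) (t x : ℝ) : Prop :=
  ∃ (a : ℝ) (g : ℝ → ℝ), HasDerivAt (fun s => u s x) a t ∧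
    (∀ᶠ z in 𝓝 x, HasDerivAt (u t) (g z) z) ∧ HasDerivAt g a x

/-- `y` is the bounded classical solution of `y_t - y_xx = 0` on `(0,T) × (0,L)` with
`y(·,0) = 0`, `y(·,L) = v`, `y(0,·) = 0`; continuous on `[0,T] × [0,L]` except perhaps at the
corner `(0,L)` (where the data `0` and `v(0)` need not match). -/
structure IsSol (L T : ℝ) (v : ℝ → ℝ) (y : ℝ → ℝ → ℝ) : Prop where
  bdd : ∃ K, ∀ t ∈ Icc 0 T, ∀ x ∈ Icc 0 L, |y t x| ≤ K
  cont : ContinuousOn (fun p : ℝ × ℝ => y p.1 p.2) ((Icc 0 T ×ˢ Icc 0 L) \ {(0, L)})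
  heat : ∀ t ∈ Ioo 0 T, ∀ x ∈ Ioo 0 L, Heat y t x
  init : ∀ x ∈ Ico 0 L, y 0 x = 0
  left : ∀ t ∈ Icc 0 T, y t 0 = 0
  right : ∀ t ∈ Ioc 0 T, y t L = v t

/-- The control `v ∈ C⁰([0,T])` achieves `ε`-approximate tracking of `w`: the flux
`q(t) = ∂ₓ y(t,0)` is continuous on `[0,T]` and `|q - w| ≤ ε` there. -/
def Achieves (L T : ℝ) (w : ℝ → ℝ) (ε : ℝ) (v : ℝ → ℝ) : Prop :=
  ContinuousOn v (Icc 0 T) ∧ ∃ (y : ℝ → ℝ → ℝ) (q : ℝ → ℝ), IsSol L T v y ∧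
    ContinuousOn q (Icc 0 T) ∧ (∀ t ∈ Icc 0 T, HasDerivWithinAt (y t) (q t) (Icc 0 L) 0) ∧
    ∀ t ∈ Icc 0 T, |q t - w t| ≤ ε

/-- The norm of `v` in `C⁰([0,T])`. -/
noncomputable def nrm (T : ℝ) (v : ℝ → ℝ) : ℝ := sSup ((fun t => |v t|) '' Icc 0 T)

/-- The cost `K_w(ε)`, an infimum in `[-∞, ∞]` (`∞` if no control achieves the tracking). -/
noncomputable def Kw (L T : ℝ) (w : ℝ → ℝ) (ε : ℝ) : EReal :=
  sInf {r : EReal | ∃ v : ℝ → ℝ, Achieves L T w ε v ∧ r = ((nrm T v : ℝ) : EReal)}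

end Pool.Agent.R190.Trk
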