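import Pool.Agent.R190.Trk.Low

set_option autoImplicit false

open Set Filter Topology

namespace Pool.Agent.R190.Trk

lemma abs_le_nrm {T : ℝ} {v : ℝ → ℝ} (hv : ContinuousOn v (Icc 0 T)) {t : ℝ}
    (ht : t ∈ Icc 0 T) : |v t| ≤ nrm T v := by
  refine le_csSup ?_ ⟨t, ht, rfl⟩
  exact (isCompact_Icc.image_of_continuousOn hv.abs).bddAbove

lemma lower_ctl {L T ε : ℝ} {v : ℝ → ℝ} (hL : 0 < L) (hε : 0 < ε) (hεT : 2 * ε < T)
    (h : Achieves L T (fun t => t) ε v) :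
    2 * ε ^ 2 / L * (Real.exp (L ^ 2 / (8 * ε)) - 1) ≤ nrm T v := by
  obtain ⟨hv, y, q, hy, -, hq, hq2⟩ := h
  set M := nrm T v with hM
  have ht0 : (2 * ε) ∈ Ioc 0 T := ⟨by linarith, hεT.le⟩
  have hM0 : 0 ≤ M := (abs_nonneg _).trans (abs_le_nrm hv ⟨ht0.1.le, ht0.2⟩)
  set s : ℝ := L ^ 2 / (8 * ε) with hs
  have hs0 : 0 < s := by positivity
  have hlam : 0 < L / (4 * ε) := by positivity
  have h1 := hy.flux_le hL hM0
    (fun t ht => (le_abs_self _).trans (abs_le_nrm hv ⟨ht.1.le, ht.2⟩)) hlam ht0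
    (hq (2 * ε) ⟨ht0.1.le, ht0.2⟩)
  have h2 : ε ≤ q (2 * ε) := by
    have := (abs_le.1 (hq2 (2 * ε) ⟨ht0.1.le, ht0.2⟩)).1
    linarith
  have e1 : L / (4 * ε) * L = 2 * s := by rw [hs]; field_simp; ring
  have e2 : (L / (4 * ε)) ^ 2 * (2 * ε) = s := by rw [hs]; field_simp; ring
  rw [e1, e2] at h1
  have h3 : ε * Real.sinh (2 * s) ≤ M * (L / (4 * ε) * Real.exp s) := by
    refine le_trans (mul_le_mul_of_nonneg_right h2 ?_) h1
    exact Real.sinh_nonneg_iff.2 (by positivity)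
  have h4 : Real.exp s * (Real.exp s - 1) ≤ 2 * Real.sinh (2 * s) := by
    rw [Real.sinh_eq]
    have : Real.exp (2 * s) = Real.exp s * Real.exp s := by rw [← Real.exp_add]; ring_nf
    have h5 : Real.exp (-(2 * s)) ≤ 1 := Real.exp_le_one_iff.2 (by linarith)
    have h6 : 1 ≤ Real.exp s := Real.one_le_exp hs0.le
    rw [this]
    nlinarith
  have hes : 0 < Real.exp s := Real.exp_pos s
  have h5 : ε * (Real.exp s * (Real.exp s - 1)) ≤ 2 * (M * (L / (4 * ε) * Real.exp s)) := by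
    have := mul_le_mul_of_nonneg_left h4 hε.le
    linarith
  have h6 : ε * (Real.exp s - 1) ≤ 2 * (M * (L / (4 * ε))) := by
    have h7 : (ε * (Real.exp s - 1)) * Real.exp s ≤ (2 * (M * (L / (4 * ε)))) * Real.exp s := by
      linarith
    exact le_of_mul_le_mul_right h7 hes
  have h8 : 2 * (M * (L / (4 * ε))) = M * L / (2 * ε) := by field_simp; ring
  rw [h8, le_div_iff₀ (by positivity)] at h6
  have h9 : 2 * ε ^ 2 / L * (Real.exp s - 1) = (ε * (Real.exp s - 1) * (2 * ε)) / L := by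
    field_simp
  rw [h9, div_le_iff₀ hL]
  exact h6

lemma lower_Kw {L T ε : ℝ} (hL : 0 < L) (hε : 0 < ε) (hεT : 2 * ε < T) :
    ((2 * ε ^ 2 / L * (Real.exp (L ^ 2 / (8 * ε)) - 1) : ℝ) : EReal) ≤
      Kw L T (fun t => t) ε := by
  refine le_sInf ?_
  rintro r ⟨v, hv, rfl⟩
  exact EReal.coe_le_coe_iff.2 (lower_ctl hL hε hεT hv)

lemma growth {L T : ℝ} (hL : 0 < L) (hT : 0 < T) (C A : ℝ) :
    ∃ ε > 0, 2 * ε < T ∧
      A * Real.exp (C / Real.sqrt ε) < 2 * ε ^ 2 / L * (Real.exp (L ^ 2 / (8 * ε)) - 1) := by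
  have h1 := (Real.tendsto_exp_div_pow_atTop 4).eventually (eventually_gt_atTop (A * L))
  have h2 := eventually_ge_atTop (8 * (|C| + 1) / L ^ 2)
  have h3 := eventually_ge_atTop (1 : ℝ)
  have h4 := eventually_gt_atTop (2 / T)
  obtain ⟨r, r1, r2, r3, r4⟩ := (h1.and (h2.and (h3.and h4))).exists
  have hr : 0 < r := by linarith
  refine ⟨1 / r ^ 2, by positivity, ?_, ?_⟩
  · rw [div_lt_iff₀ hT] at r4
    have : 2 * (1 / r ^ 2) = 2 / r ^ 2 := by ring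
    rw [this, div_lt_iff₀ (by positivity)]
    nlinarith
  · have hsq : Real.sqrt (1 / r ^ 2) = 1 / r := by
      rw [show (1 / r ^ 2 : ℝ) = (1 / r) ^ 2 by ring]
      exact Real.sqrt_sq (by positivity)
    rw [hsq]
    have e1 : C / (1 / r) = C * r := by field_simp
    have e2 : L ^ 2 / (8 * (1 / r ^ 2)) = L ^ 2 * r ^ 2 / 8 := by field_simp
    have e3 : 2 * (1 / r ^ 2) ^ 2 / L = 2 / (L * r ^ 4) := by field_simp
    rw [e1, e2, e3]
    rw [div_le_iff₀ (by positivity)] at r2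
    have g1 : C * r + r ≤ L ^ 2 * r ^ 2 / 8 := by
      have : C ≤ |C| := le_abs_self C
      have h5 : (|C| + 1) * r ≤ L ^ 2 * r ^ 2 / 8 := by nlinarith
      nlinarith
    have g1' : r ≤ L ^ 2 * r ^ 2 / 8 := by
      have : 0 ≤ |C| := abs_nonneg C
      have h5 : (|C| + 1) * r ≤ L ^ 2 * r ^ 2 / 8 := by nlinarith
      nlinarith [mul_nonneg this hr.le]
    have g2 : Real.exp (C * r) * Real.exp r ≤ Real.exp (L ^ 2 * r ^ 2 / 8) := by
      rw [← Real.exp_add]; exact Real.exp_le_exp.2 g1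
    have g3 : 2 ≤ Real.exp (L ^ 2 * r ^ 2 / 8) := by
      have := Real.add_one_le_exp (L ^ 2 * r ^ 2 / 8)
      linarith
    have g4 : A * L * r ^ 4 < Real.exp r := by
      rw [lt_div_iff₀ (by positivity)] at r1
      exact r1
    have hC : 0 < Real.exp (C * r) := Real.exp_pos _
    have g5 : A * L * r ^ 4 * Real.exp (C * r) < Real.exp (L ^ 2 * r ^ 2 / 8) := by
      calc A * L * r ^ 4 * Real.exp (C * r) < Real.exp r * Real.exp (C * r) :=
            mul_lt_mul_of_pos_right g4 hC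
        _ = Real.exp (C * r) * Real.exp r := mul_comm _ _
        _ ≤ _ := g2
    have g6 : 2 / (L * r ^ 4) * (Real.exp (L ^ 2 * r ^ 2 / 8) - 1) =
        (2 * (Real.exp (L ^ 2 * r ^ 2 / 8) - 1)) / (L * r ^ 4) := by ring
    rw [g6, lt_div_iff₀ (by positivity)]
    nlinarith

theorem mainQ2 {L T : ℝ} (hL : 0 < L) (hT : 0 < T) :
    (∀ ε : ℝ, 0 < ε → 2 * ε < T →
      ((2 * ε ^ 2 / L * (Real.exp (L ^ 2 / (8 * ε)) - 1) : ℝ) : EReal) ≤
        Kw L T (fun t => t) ε) ∧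
    ∀ C A : ℝ, ∃ ε > 0, ((A * Real.exp (C / Real.sqrt ε) : ℝ) : EReal) <
      Kw L T (fun t => t) ε := by
  refine ⟨fun ε h1 h2 => lower_Kw hL h1 h2, fun C A => ?_⟩
  obtain ⟨ε, h1, h2, h3⟩ := growth hL hT C A
  exact ⟨ε, h1, lt_of_lt_of_le (EReal.coe_lt_coe_iff.2 h3) (lower_Kw hL h1 h2)⟩

end Pool.Agent.R190.Trk
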