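import Pool.Agent.R190.Trk.Bar

set_option autoImplicit false

open Set Filter Topology

namespace Pool.Agent.R190.Trk

variable {L T : ℝ} {v : ℝ → ℝ} {y : ℝ → ℝ → ℝ}

lemma IsSol.neg (h : IsSol L T v y) : IsSol L T (fun t => -v t) (fun t x => -y t x) where
  bdd := by
    obtain ⟨K, hK⟩ := h.bdd
    exact ⟨K, fun t ht x hx => by rw [abs_neg]; exact hK t ht x hx⟩
  cont := h.cont.neg
  heat := fun t ht x hx => (h.heat t ht x hx).neg
  init := fun x hx => by rw [h.init x hx, neg_zero]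
  left := fun t ht => by rw [h.left t ht, neg_zero]
  right := fun t ht => by rw [h.right t ht]

/-- continuity on rectangles that avoid the corner -/
lemma IsSol.cont_rect (h : IsSol L T v y) {t1 t2 b : ℝ} (h1 : 0 ≤ t1) (h2 : t2 ≤ T) (hb : b ≤ L)
    (hcor : 0 < t1 ∨ b < L) :
    ContinuousOn (fun p : ℝ × ℝ => y p.1 p.2) (Icc t1 t2 ×ˢ Icc 0 b) := by
  refine h.cont.mono ?_
  rintro ⟨t, x⟩ ⟨ht, hx⟩
  refine ⟨⟨⟨h1.trans ht.1, ht.2.trans h2⟩, ⟨hx.1, hx.2.trans hb⟩⟩, ?_⟩
  intro hp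
  rw [mem_singleton_iff, Prod.mk.injEq] at hp
  rcases hcor with hc | hc
  · have := ht.1; simp only at this; linarith [hp.1]
  · have := hx.2; simp only at this; linarith [hp.2]

/-- The maximum principle for the bounded solution. -/
lemma IsSol.le_of_le (hL : 0 < L) (h : IsSol L T v y) {M : ℝ} (hM : 0 ≤ M)
    (hv : ∀ t ∈ Ioc 0 T, v t ≤ M) : ∀ t ∈ Ioc 0 T, ∀ x ∈ Icc 0 L, y t x ≤ M := by
  intro t ht x hx
  obtain ⟨K', hK'⟩ := h.bdd
  set K : ℝ := max K' 0 with hK
  have hK0 : 0 ≤ K := le_max_right _ _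
  have hyK : ∀ t ∈ Icc 0 T, ∀ x ∈ Icc 0 L, y t x ≤ K := fun t ht x hx =>
    ((le_abs_self _).trans (hK' t ht x hx)).trans (le_max_left _ _)
  have key : ∀ η : ℝ, 0 < η → η < L → η ^ 2 < t → y t x ≤ M + K * Wb L η t x := by
    intro η hη hηL hηt
    have hηT : η ^ 2 ≤ T := hηt.le.trans ht.2
    have hη2 : 0 < η ^ 2 := by positivity
    -- step 1
    have step1 : ∀ s ∈ Icc 0 (η ^ 2), ∀ z ∈ Icc 0 (L - η), y s z - K * Wb L η s z ≤ 0 := by
      refine maxp (u := fun s z => y s z - K * Wb L η s z) ?_ ?_ ?_ ?_ ?_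
      · refine (h.cont_rect le_rfl hηT (by linarith) (Or.inr (by linarith))).sub ?_
        exact continuousOn_const.mul ((Wb_cont L hη).mono fun p hp => hp.1.1)
      · intro s hs z hz
        exact (h.heat s ⟨hs.1, by linarith [hs.2]⟩ z ⟨hz.1, by linarith [hz.2]⟩).sub
          ((heat_Wb L hη hs.1.le z).const_mul K)
      · intro z hz
        rw [h.init z ⟨hz.1, by linarith [hz.2]⟩]
        have := mul_nonneg hK0 (Wb_nonneg L (t := 0) hη z)
        linarith
      · intro s hs
        rw [h.left s ⟨hs.1, by linarith [hs.2]⟩]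
        have := mul_nonneg hK0 (Wb_nonneg L (t := s) hη 0)
        linarith
      · intro s hs
        have h1 := hyK s ⟨hs.1, by linarith [hs.2]⟩ (L - η) ⟨by linarith, by linarith⟩
        have h2 : 1 ≤ Wb L η s (L - η) := one_le_Wb hη hs.1 hs.2 (by
          rw [show L - (L - η) = η by ring, abs_of_pos hη])
        have h3 := mul_le_mul_of_nonneg_left h2 hK0
        linarith
    have step2 : ∀ s ∈ Icc (η ^ 2) T, ∀ z ∈ Icc 0 L, y s z - M - K * Wb L η s z ≤ 0 := by
      refine maxp (u := fun s z => y s z - M - K * Wb L η s z) ?_ ?_ ?_ ?_ ?_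
      · refine ((h.cont_rect hη2.le le_rfl le_rfl (Or.inl hη2)).sub continuousOn_const).sub ?_
        exact continuousOn_const.mul ((Wb_cont L hη).mono fun p hp =>
          (le_trans hη2.le hp.1.1 : (0 : ℝ) ≤ p.1))
      · intro s hs z hz
        have hs0 : 0 < s := hη2.trans hs.1
        exact ((h.heat s ⟨hs0, hs.2⟩ z hz).sub (heat_const M s z)).sub
          ((heat_Wb L hη hs0.le z).const_mul K)
      · intro z hz
        rcases le_or_gt z (L - η) with hz1 | hz1
        · have := step1 (η ^ 2) ⟨hη2.le, le_rfl⟩ z ⟨hz.1, hz1⟩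
          linarith
        · have h1 := hyK (η ^ 2) ⟨hη2.le, hηT⟩ z hz
          have h2 : 1 ≤ Wb L η (η ^ 2) z := one_le_Wb hη hη2.le le_rfl (by
            rw [abs_of_nonneg (by linarith [hz.2])]; linarith)
          have h3 := mul_le_mul_of_nonneg_left h2 hK0
          linarith
      · intro s hs
        rw [h.left s ⟨hη2.le.trans hs.1, hs.2⟩]
        have := mul_nonneg hK0 (Wb_nonneg L (t := s) hη 0)
        linarith
      · intro s hs
        rw [h.right s ⟨hη2.trans_le hs.1, hs.2⟩]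
        have := mul_nonneg hK0 (Wb_nonneg L (t := s) hη L)
        have := hv s ⟨hη2.trans_le hs.1, hs.2⟩
        linarith
    have := step2 t ⟨hηt.le, ht.2⟩ x hx
    linarith
  -- let `η → 0`
  have hlim : Tendsto (fun η : ℝ => M + K * (4 * η / Real.sqrt t)) (𝓝[>] 0) (𝓝 M) := by
    have hc : Continuous fun η : ℝ => M + K * (4 * η / Real.sqrt t) := by fun_prop
    have := (hc.tendsto 0).mono_left (nhdsWithin_le_nhds (s := Ioi 0))
    simpa using this
  refine ge_of_tendsto hlim ?_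
  have h1 : ∀ᶠ η : ℝ in 𝓝[>] 0, η < L := nhdsWithin_le_nhds (Iio_mem_nhds hL)
  have h2 : ∀ᶠ η : ℝ in 𝓝[>] 0, η ^ 2 < t := by
    have hc : Continuous fun η : ℝ => η ^ 2 := by fun_prop
    have := (hc.tendsto 0).mono_left (nhdsWithin_le_nhds (s := Ioi 0))
    refine this.eventually (Iio_mem_nhds ?_)
    simpa using ht.1
  filter_upwards [h1, h2, self_mem_nhdsWithin] with η e1 e2 e3
  have e3' : 0 < η := e3
  have := key η e3' e1 e2
  have h4 := mul_le_mul_of_nonneg_left (Wb_le L e3' ht.1 x) hK0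
  linarith

/-- comparison with the separated solution -/
lemma IsSol.le_Sh (hL : 0 < L) (h : IsSol L T v y) {M : ℝ} (hM : 0 ≤ M)
    (hv : ∀ t ∈ Ioc 0 T, v t ≤ M) {lam : ℝ} (hlam : 0 < lam) :
    ∀ t ∈ Ioc 0 T, ∀ x ∈ Ico 0 L, y t x * Real.sinh (lam * L) ≤ M * Sh lam t x := by
  intro t ht x hx
  have hle := h.le_of_le hL hM hv
  have key : ∀ b : ℝ, x < b → b < L → y t x * Real.sinh (lam * b) ≤ M * Sh lam t x := by
    intro b hxb hbL
    have hb : 0 < b := hx.1.trans_lt hxb
    have hsb : 0 < Real.sinh (lam * b) := Real.sinh_pos_iff.2 (by positivity)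
    have step : ∀ s ∈ Icc 0 T, ∀ z ∈ Icc 0 b,
        Real.sinh (lam * b) * y s z - M * Sh lam s z ≤ 0 := by
      refine maxp (u := fun s z => Real.sinh (lam * b) * y s z - M * Sh lam s z) ?_ ?_ ?_ ?_ ?_
      · refine (continuousOn_const.mul
          (h.cont_rect le_rfl le_rfl hbL.le (Or.inr hbL))).sub ?_
        exact (continuous_const.mul (Sh_cont lam)).continuousOn
      · intro s hs z hz
        exact ((h.heat s hs z ⟨hz.1, hz.2.trans hbL⟩).const_mul _).sub
          ((heat_Sh lam s z).const_mul M)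
      · intro z hz
        rw [h.init z ⟨hz.1, hz.2.trans_lt hbL⟩]
        have h1 : 0 ≤ Sh lam 0 z := by
          unfold Sh
          exact mul_nonneg (Real.exp_nonneg _) (Real.sinh_nonneg_iff.2 (mul_nonneg hlam.le hz.1))
        have := mul_nonneg hM h1
        linarith
      · intro s hs
        rw [h.left s hs]
        simp [Sh]
      · intro s hs
        have h1 : y s b ≤ M := by
          rcases eq_or_lt_of_le hs.1 with h0 | h0
          · rw [← h0, h.init b ⟨hb.le, hbL⟩]; exact hM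
          · exact hle s ⟨h0, hs.2⟩ b ⟨hb.le, hbL.le⟩
        have h2 : 1 ≤ Real.exp (lam ^ 2 * s) := Real.one_le_exp (by have := hs.1; positivity)
        have h3 : M * Real.sinh (lam * b) ≤ M * Sh lam s b := by
          unfold Sh
          have : Real.sinh (lam * b) ≤ Real.exp (lam ^ 2 * s) * Real.sinh (lam * b) := by
            nlinarith
          exact mul_le_mul_of_nonneg_left this hM
        have h4 := mul_le_mul_of_nonneg_left h1 hsb.le
        linarith
    have := step t ⟨ht.1.le, ht.2⟩ x ⟨hx.1, hxb.le⟩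
    linarith
  have hlim : Tendsto (fun b : ℝ => y t x * Real.sinh (lam * b)) (𝓝[<] L)
      (𝓝 (y t x * Real.sinh (lam * L))) := by
    have hc : Continuous fun b : ℝ => y t x * Real.sinh (lam * b) := by fun_prop
    exact (hc.tendsto L).mono_left (nhdsWithin_le_nhds (s := Iio L))
  refine le_of_tendsto hlim ?_
  filter_upwards [Ioo_mem_nhdsLT hx.2] with b hb using key b hb.1 hb.2

/-- bound for the flux at `x = 0` -/
lemma IsSol.flux_le (hL : 0 < L) (h : IsSol L T v y) {M : ℝ} (hM : 0 ≤ M)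
    (hv : ∀ t ∈ Ioc 0 T, v t ≤ M) {lam : ℝ} (hlam : 0 < lam) {t q : ℝ} (ht : t ∈ Ioc 0 T)
    (hq : HasDerivWithinAt (y t) q (Icc 0 L) 0) :
    q * Real.sinh (lam * L) ≤ M * (lam * Real.exp (lam ^ 2 * t)) := by
  have h1 : HasDerivWithinAt (fun x => M * Sh lam t x - y t x * Real.sinh (lam * L))
      (M * (lam * Real.exp (lam ^ 2 * t)) - q * Real.sinh (lam * L)) (Icc 0 L) 0 := by
    have h2 : HasDerivAt (fun s : ℝ => lam * s) lam 0 := by
      simpa using (hasDerivAt_id (0 : ℝ)).const_mul lam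
    have h3 : HasDerivAt (fun x => Sh lam t x) (lam * Real.exp (lam ^ 2 * t)) 0 := by
      have h4 : HasDerivAt (fun x => Sh lam t x) _ 0 :=
        (h2.sinh).const_mul (Real.exp (lam ^ 2 * t))
      refine h4.congr_deriv ?_
      rw [mul_zero, Real.cosh_zero]
      ring
    exact ((h3.const_mul M).hasDerivWithinAt).sub (hq.mul_const _)
  have h2 := (hasDerivWithinAt_iff_tendsto_slope' (s := Ioc 0 L) (fun hh => lt_irrefl _ hh.1)).1
    (h1.mono Ioc_subset_Icc_self)
  have hne : (𝓝[Ioc 0 L] (0 : ℝ)).NeBot := by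
    rw [nhdsWithin_Ioc_eq_nhdsGT hL]; infer_instance
  have h3 : 0 ≤ M * (lam * Real.exp (lam ^ 2 * t)) - q * Real.sinh (lam * L) := by
    refine ge_of_tendsto h2 ?_
    have h4 : ∀ᶠ x in 𝓝[Ioc 0 L] (0 : ℝ), x < L := nhdsWithin_le_nhds (Iio_mem_nhds hL)
    filter_upwards [self_mem_nhdsWithin, h4] with x hx hxL
    rw [slope_def_field]
    have h5 := h.le_Sh hL hM hv hlam t ht x ⟨hx.1.le, hxL⟩
    have h6 : M * Sh lam t 0 - y t 0 * Real.sinh (lam * L) = 0 := by
      rw [h.left t ⟨ht.1.le, ht.2⟩]; simp [Sh]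
    rw [h6]
    exact div_nonneg (by linarith) (by linarith [hx.1])
  linarith

end Pool.Agent.R190.Trk
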