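import Pool.Agent.R190.Trk.Defs

set_option autoImplicit false

open Set Filter Topology

namespace Pool.Agent.R190.Trk

lemma Heat.sub {u w : ℝ → ℝ → ℝ} {t x : ℝ} (hu : Heat u t x) (hw : Heat w t x) :
    Heat (fun t x => u t x - w t x) t x := by
  obtain ⟨a, g, h1, h2, h3⟩ := hu
  obtain ⟨a', g', h1', h2', h3'⟩ := hw
  refine ⟨a - a', fun z => g z - g' z, h1.sub h1', ?_, h3.sub h3'⟩
  filter_upwards [h2, h2'] with z hz hz' using hz.sub hz'

lemma Heat.const_mul {u : ℝ → ℝ → ℝ} {t x : ℝ} (hu : Heat u t x) (c : ℝ) :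
    Heat (fun t x => c * u t x) t x := by
  obtain ⟨a, g, h1, h2, h3⟩ := hu
  refine ⟨c * a, fun z => c * g z, h1.const_mul c, ?_, h3.const_mul c⟩
  filter_upwards [h2] with z hz using hz.const_mul c

lemma heat_const (c t x : ℝ) : Heat (fun _ _ => c) t x :=
  ⟨0, fun _ => 0, hasDerivAt_const _ _, Eventually.of_forall fun _ => hasDerivAt_const _ _,
    hasDerivAt_const _ _⟩

lemma Heat.neg {u : ℝ → ℝ → ℝ} {t x : ℝ} (hu : Heat u t x) :
    Heat (fun t x => -u t x) t x := by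
  have := hu.const_mul (-1)
  simpa using this

/-- one sided derivative test -/
lemma deriv_nonneg_left {f : ℝ → ℝ} {f' τ : ℝ} (h : HasDerivAt f f' τ)
    (hm : ∀ᶠ r in 𝓝[<] τ, f r ≤ f τ) : 0 ≤ f' := by
  have h1 := (hasDerivAt_iff_tendsto_slope.1 h).mono_left
    (nhdsWithin_mono τ (show Iio τ ⊆ {τ}ᶜ from fun r hr => ne_of_lt hr))
  refine ge_of_tendsto h1 ?_
  filter_upwards [hm, self_mem_nhdsWithin] with r hr hr'
  rw [slope_def_field]
  have : r < τ := hr'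
  exact div_nonneg_of_nonpos (by linarith) (by linarith)

lemma second_nonpos {f g : ℝ → ℝ} {a z : ℝ} (h : ∀ᶠ x in 𝓝 z, HasDerivAt f (g x) x)
    (hg : HasDerivAt g a z) (hm : IsLocalMax f z) : a ≤ 0 := by
  by_contra hcon
  push Not at hcon
  have e1 : deriv f =ᶠ[𝓝 z] g := by
    filter_upwards [h] with x hx using hx.deriv
  have e2 : deriv (deriv f) z = a := by
    rw [e1.deriv_eq, hg.deriv]
  have e3 : deriv f z = 0 := hm.deriv_eq_zero
  have hmin := isLocalMin_of_deriv_deriv_pos (by rw [e2]; exact hcon) e3 h.self_of_nhds.continuousAt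
  have hconst : f =ᶠ[𝓝 z] fun _ => f z := by
    filter_upwards [hm, hmin] with x h1 h2 using le_antisymm h1 h2
  have e4 : deriv f =ᶠ[𝓝 z] fun _ => 0 := by
    have := hconst.deriv
    filter_upwards [this] with x hx
    rw [hx]; simp
  have e5 : deriv (deriv f) z = 0 := by
    rw [e4.deriv_eq]; simp
  rw [e2] at e5
  linarith

/-- The weak maximum principle for the heat equation on a closed rectangle. -/
theorem maxp {u : ℝ → ℝ → ℝ} {t1 t2 a b : ℝ}
    (hc : ContinuousOn (fun p : ℝ × ℝ => u p.1 p.2) (Icc t1 t2 ×ˢ Icc a b))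
    (hh : ∀ t ∈ Ioo t1 t2, ∀ x ∈ Ioo a b, Heat u t x)
    (h0 : ∀ x ∈ Icc a b, u t1 x ≤ 0) (ha : ∀ t ∈ Icc t1 t2, u t a ≤ 0)
    (hb : ∀ t ∈ Icc t1 t2, u t b ≤ 0) :
    ∀ t ∈ Icc t1 t2, ∀ x ∈ Icc a b, u t x ≤ 0 := by
  intro t ht x hx
  by_contra hcon
  push Not at hcon
  -- move to a time before `t2`
  obtain ⟨s, hs1, hs2, hspos⟩ : ∃ s, t1 < s ∧ s < t2 ∧ 0 < u s x := by
    have htne : t1 < t := by
      rcases eq_or_lt_of_le ht.1 with h | h
      · rw [← h] at hcon; exact absurd (h0 x hx) (not_le.2 hcon)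
      · exact h
    have hcx : ContinuousOn (fun s => u s x) (Icc t1 t2) := by
      have : ContinuousOn (fun s : ℝ => ((s, x) : ℝ × ℝ)) (Icc t1 t2) := by fun_prop
      exact hc.comp this fun s hs => ⟨hs, hx⟩
    have hev : ∀ᶠ s in 𝓝[Icc t1 t2] t, 0 < u s x := (hcx t ht).eventually (lt_mem_nhds hcon)
    have hss : Ioo t1 t ⊆ Icc t1 t2 := fun s hs => ⟨hs.1.le, hs.2.le.trans ht.2⟩
    have hev2 : ∀ᶠ s in 𝓝[Ioo t1 t] t, 0 < u s x := hev.filter_mono (nhdsWithin_mono t hss)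
    have hne : (𝓝[Ioo t1 t] t).NeBot := by
      rw [nhdsWithin_Ioo_eq_nhdsLT htne]; infer_instance
    obtain ⟨s, h1, h2⟩ := (hev2.and self_mem_nhdsWithin).exists
    exact ⟨s, h2.1, h2.2.trans_le ht.2, h1⟩
  set η : ℝ := u s x / (2 * (s - t1)) with hη
  have hηpos : 0 < η := by
    have : 0 < s - t1 := by linarith
    positivity
  set w : ℝ × ℝ → ℝ := fun p => u p.1 p.2 - η * (p.1 - t1) with hw
  have hsub : Icc t1 s ×ˢ Icc a b ⊆ Icc t1 t2 ×ˢ Icc a b :=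
    prod_mono (Icc_subset_Icc_right hs2.le) le_rfl
  have hwc : ContinuousOn w (Icc t1 s ×ˢ Icc a b) := by
    refine (hc.mono hsub).sub ?_
    fun_prop
  have hne : (Icc t1 s ×ˢ Icc a b : Set (ℝ × ℝ)).Nonempty := ⟨(s, x), ⟨⟨hs1.le, le_rfl⟩, hx⟩⟩
  obtain ⟨⟨τ, z⟩, hp, hmax⟩ := (isCompact_Icc.prod isCompact_Icc).exists_isMaxOn hne hwc
  have hval : 0 < w (τ, z) := by
    have h1 := hmax (show (s, x) ∈ Icc t1 s ×ˢ Icc a b from ⟨⟨hs1.le, le_rfl⟩, hx⟩)
    have h2 : w (s, x) = u s x / 2 := by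
      rw [hw, hη]
      have : s - t1 ≠ 0 := by linarith
      simp only
      field_simp
      ring
    have h3 : w (s, x) ≤ w (τ, z) := h1
    linarith
  have hτ : τ ∈ Icc t1 s := hp.1
  have hz : z ∈ Icc a b := hp.2
  have hupos : 0 < u τ z := by
    have h1 : w (τ, z) = u τ z - η * (τ - t1) := rfl
    have h2 : 0 ≤ η * (τ - t1) := mul_nonneg hηpos.le (by linarith [hτ.1])
    linarith
  have hτ1 : t1 < τ := by
    rcases eq_or_lt_of_le hτ.1 with h | h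
    · rw [← h] at hupos; exact absurd (h0 z hz) (not_le.2 hupos)
    · exact h
  have hτ2 : τ < t2 := lt_of_le_of_lt hτ.2 hs2
  have hza : a < z := by
    rcases eq_or_lt_of_le hz.1 with h | h
    · rw [← h] at hupos; exact absurd (ha τ ⟨hτ.1, hτ2.le⟩) (not_le.2 hupos)
    · exact h
  have hzb : z < b := by
    rcases eq_or_lt_of_le hz.2 with h | h
    · rw [h] at hupos; exact absurd (hb τ ⟨hτ.1, hτ2.le⟩) (not_le.2 hupos)
    · exact h
  obtain ⟨A, g, d1, d2, d3⟩ := hh τ ⟨hτ1, hτ2⟩ z ⟨hza, hzb⟩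
  have hA : A ≤ 0 := by
    refine second_nonpos d2 d3 ?_
    filter_upwards [Ioo_mem_nhds hza hzb] with r hr
    have h1 : w (τ, r) ≤ w (τ, z) := hmax (show (τ, r) ∈ Icc t1 s ×ˢ Icc a b from
      ⟨hτ, ⟨hr.1.le, hr.2.le⟩⟩)
    have h2 : w (τ, r) = u τ r - η * (τ - t1) := rfl
    have h3 : w (τ, z) = u τ z - η * (τ - t1) := rfl
    linarith
  have hA2 : 0 ≤ A - η := by
    have d : HasDerivAt (fun r => u r z - η * (r - t1)) (A - η * 1) τ :=
      d1.sub (((hasDerivAt_id τ).sub_const t1).const_mul η)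
    rw [mul_one] at d
    refine deriv_nonneg_left d ?_
    filter_upwards [Ioo_mem_nhdsLT hτ1] with r hr
    exact hmax (show (r, z) ∈ Icc t1 s ×ˢ Icc a b from ⟨⟨hr.1.le, hr.2.le.trans hτ.2⟩, hz⟩)
  linarith

end Pool.Agent.R190.Trk
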